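import Pool.Agent.Helper342.Bell.Final

/-!
MP_e6e34a_mp, Q1 (disproof).  The DKZ (Fourier-phase) measurements do not minimise the critical
visibility: for all large `d` there are complete von Neumann measurements whose critical visibility
is arbitrarily close to `1/2` (no measurement can go below `1/2`), while the critical visibility of
the DKZ measurements is at least `13/25` in every dimension.

The better measurements: on `n` qubit pairs inside `ℂ^d` use the optimal CHSH measurement on every
pair, all with the same input.  In each coordinate a deterministic strategy loses at least one of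
the four input pairs, so the four numbers of lost coordinates add up to at least `n`; but the
maximally entangled state loses a fraction about `0.146` for every input pair, and white noise loses
about one half.  A threshold score `+1` (at most `0.155 n` losses), `0`, `-1` (more than `0.53 n`
losses) is at most `2` for local behaviours, tends to `4` for the entangled part and to `0` for the
noise.
-/

set_option autoImplicit false

namespace Pool.Agent.Results.MP_e6e34a_mp.DKZNotOptimal

open Pool.Agent.Helper342.Bell

theorem result :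
    -- the question, answered negatively
    (¬ ∀ d : ℕ, 4 ≤ d → ∀ u w : Fin 2 → Fin d → Fin d → ℂ, IsMeasurement u → IsMeasurement w →
        critVis (dkzA d) (dkzB d) ≤ critVis u w) ∧
    -- more precisely, for all large `d` the DKZ measurements are not optimal (negated form)
    (∃ D : ℕ, ∀ d : ℕ, D ≤ d → ∃ u w : Fin 2 → Fin d → Fin d → ℂ,
        IsMeasurement u ∧ IsMeasurement w ∧ critVis u w < critVis (dkzA d) (dkzB d) ∧
        ∃ v ∈ Set.Icc (0 : ℝ) 1, ¬ IsLocal (behaviour u w v) ∧
          IsLocal (behaviour (dkzA d) (dkzB d) v)) ∧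
    -- the DKZ vectors are measurements, with critical visibility at least `13/25` for every `d`
    (∀ d : ℕ, 1 ≤ d → IsMeasurement (dkzA d) ∧ IsMeasurement (dkzB d) ∧
        13 / 25 ≤ critVis (dkzA d) (dkzB d)) ∧
    -- all measurements have critical visibility at least `1/2`
    (∀ d : ℕ, 1 ≤ d → ∀ u w : Fin 2 → Fin d → Fin d → ℂ, IsMeasurement u → IsMeasurement w →
        1 / 2 ≤ critVis u w) ∧
    -- and `1/2` is the limit of the optimal critical visibility as `d → ∞`
    (∀ ε : ℝ, 0 < ε → ∃ D : ℕ, ∀ d : ℕ, D ≤ d → ∃ u w : Fin 2 → Fin d → Fin d → ℂ,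
        IsMeasurement u ∧ IsMeasurement w ∧ critVis u w ≤ 1 / 2 + ε) := by
  have main : ∃ D : ℕ, ∀ d : ℕ, D ≤ d → ∃ u w : Fin 2 → Fin d → Fin d → ℂ,
      IsMeasurement u ∧ IsMeasurement w ∧ critVis u w < critVis (dkzA d) (dkzB d) ∧
      ∃ v ∈ Set.Icc (0 : ℝ) 1, ¬ IsLocal (behaviour u w v) ∧
        IsLocal (behaviour (dkzA d) (dkzB d) v) := by
    obtain ⟨D, hD⟩ := critVis_near_half (ε := 1 / 100) (by norm_num)
    refine ⟨max D 1, fun d hd => ?_⟩
    obtain ⟨u, w, hu, hw, h⟩ := hD d (le_trans (le_max_left _ _) hd)
    have hd0 : 0 < d := lt_of_lt_of_le zero_lt_one (le_trans (le_max_right _ _) hd)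
    have h1 := dkz_critVis hd0
    refine ⟨u, w, hu, hw, by linarith, 13 / 25, ⟨by norm_num, by norm_num⟩, ?_, dkz_local hd0⟩
    intro hloc
    have h2 := le_critVis u w ⟨by norm_num, by norm_num⟩ hloc
    linarith
  refine ⟨?_, main, fun d hd => ⟨isMeasurement_dkzA d, isMeasurement_dkzB d, dkz_critVis hd⟩,
    fun d hd u w hu hw => half_le_critVis hd u w hu hw, fun ε hε => critVis_near_half hε⟩
  intro h
  obtain ⟨D, hD⟩ := main
  obtain ⟨u, w, hu, hw, hlt, _⟩ := hD (max D 4) (le_max_left _ _)
  exact absurd (h (max D 4) (le_max_right _ _) u w hu hw) (not_le.mpr hlt)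

end Pool.Agent.Results.MP_e6e34a_mp.DKZNotOptimal
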